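import Pool.Agent.U722.FF.Li
import Pool.Agent.U722.FF.Perf

/-!
# Subcomplexes of contractible 2-complexes with linear fundamental groups of rank two

Let `K` be a subcomplex of a contractible 2-complex `L`. Is `π_1(K)` locally indicable? We show that the
answer is yes if `π_1(K, x)` is isomorphic to a subgroup of `GL_2(ℤ[x_1, ..., x_n])` for some `n`; if it has
torsion a priori, we use the theorem of Adams (1955), stated as `AdamsTheorem`: if `π_1(K, x)` has no
nontrivial perfect subgroup then the component of `K` is aspherical, hence `π_1(K, x)` is torsion-free.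

Outline. (1) A finitely generated torsion-free subgroup `H` of `GL_2(ℤ[x_1, ..., x_n])` acts on a tree with
finitely many orbits, finitely generated abelian stabilizers of edges, and finitely generated abelian or
free stabilizers of vertices (`Pool.Agent.U722.FF.Str`). If `H` has no nontrivial homomorphism to `ℤ` then
the quotient graph is a tree, and a count of dimensions of the spaces of homomorphisms from the
stabilizers to `ℚ` gives a compatible family, hence a nontrivial homomorphism from `H` to `ℚ`. (2) The group
`GL_2(ℤ[x_1, ..., x_n])` has no nontrivial perfect subgroup `P`: its image in `GL_2(ℤ/2)` is trivial, and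
the congruence subgroups of the powers of the ideal `(2, x_1, ..., x_n)` show that `P = 1`.
-/

set_option autoImplicit false

open Topology

namespace Pool.Agent.Results.MP_cf50d6_gt.PolynomialMatrixGroups

/-- `G` is isomorphic to a subgroup of `GL_2(ℤ[x_1, ..., x_n])` -/
def Lin (n : ℕ) (G : Type) [Group G] : Prop :=
  ∃ ρ : G →* GL (Fin 2) (MvPolynomial (Fin n) ℤ), Function.Injective ρ

/-- only the unit element has finite order -/
def TorsionFree (G : Type) [Group G] : Prop := ∀ g : G, ∀ k : ℕ, 0 < k → g ^ k = 1 → g = 1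

/-- the trivial subgroup is the only perfect subgroup -/
def NoPerfect (G : Type) [Group G] : Prop := ∀ P : Subgroup G, ⁅P, P⁆ = P → P = ⊥

/-- every nontrivial finitely generated subgroup maps onto the integers -/
def LocInd (G : Type) [Group G] : Prop := ∀ H : Subgroup G, H.FG → H ≠ ⊥ →
  ∃ f : H →* Multiplicative ℤ, Function.Surjective f

/-- `K` is a subcomplex of the contractible 2-complex `L` -/
def Sub2 {X : Type} [TopologicalSpace X] [T2Space X] (L : Set X) [RelCWComplex L ∅] (K : Set X) :
    Prop :=
  (∀ n : ℕ, 2 < n → IsEmpty (RelCWComplex.cell L n)) ∧ ContractibleSpace L ∧ IsClosed K ∧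
    ∃ I : ∀ n : ℕ, Set (RelCWComplex.cell L n),
      K = ⋃ n : ℕ, ⋃ j ∈ I n, RelCWComplex.openCell (C := L) n j

/-- The theorem of Adams (1955) for subcomplexes of contractible 2-complexes: if the fundamental group of a
component has no nontrivial perfect subgroup then the component is aspherical; its fundamental group is
torsion-free, having a classifying space of dimension two. -/
def AdamsTheorem : Prop := ∀ (X : Type) [TopologicalSpace X] [T2Space X] (L : Set X)
  [RelCWComplex L ∅] (K : Set X), Sub2 L K → ∀ x : K, NoPerfect (FundamentalGroup K x) →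
  TorsionFree (FundamentalGroup K x)

theorem onto {H : Type} [Group H] (f : H →* Multiplicative ℤ) (hf : f ≠ 1) :
    ∃ g : H →* Multiplicative ℤ, Function.Surjective g := by
  let S : AddSubgroup ℤ :=
    { carrier := {z | ∃ h, f h = Multiplicative.ofAdd z}
      zero_mem' := ⟨1, map_one f⟩
      add_mem' := by
        rintro a b ⟨x, hx⟩ ⟨y, hy⟩
        exact ⟨x * y, by rw [map_mul, hx, hy]; rfl⟩
      neg_mem' := by
        rintro a ⟨x, hx⟩
        exact ⟨x⁻¹, by rw [map_inv, hx]; rfl⟩ }
  obtain ⟨a, ha⟩ := Int.subgroup_cyclic S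
  have hdvd : ∀ h, ∃ k : ℤ, (f h).toAdd = k * a := by
    intro h
    have h1 : (f h).toAdd ∈ S := ⟨h, rfl⟩
    rw [ha, AddSubgroup.mem_closure_singleton] at h1
    obtain ⟨k, hk⟩ := h1
    exact ⟨k, by rw [← hk, smul_eq_mul]⟩
  have ha0 : a ≠ 0 := by
    rintro rfl
    apply hf
    ext h
    obtain ⟨k, hk⟩ := hdvd h
    rw [mul_zero] at hk
    rw [MonoidHom.one_apply]
    exact hk
  choose k hk using hdvd
  have hmem : a ∈ S := by
    rw [ha]
    exact AddSubgroup.subset_closure rfl
  obtain ⟨h0, hh0⟩ := hmem
  refine ⟨{ toFun := fun h => Multiplicative.ofAdd (k h), map_one' := ?_, map_mul' := ?_ }, ?_⟩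
  · have h1 := hk 1
    rw [map_one, toAdd_one] at h1
    have h2 : k 1 = 0 := by
      rcases mul_eq_zero.1 h1.symm with h | h
      · exact h
      · exact absurd h ha0
    rw [h2]
    rfl
  · intro x y
    have h1 := hk (x * y)
    rw [map_mul, toAdd_mul, hk x, hk y, ← add_mul] at h1
    have h2 := mul_right_cancel₀ ha0 h1
    rw [← h2]
    rfl
  · intro z
    refine ⟨h0 ^ z.toAdd, ?_⟩
    show Multiplicative.ofAdd (k (h0 ^ z.toAdd)) = z
    have h1 := hk (h0 ^ z.toAdd)
    rw [map_zpow, hh0] at h1
    have h2 : z.toAdd * a = k (h0 ^ z.toAdd) * a := by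
      rw [← h1]
      rfl
    rw [← mul_right_cancel₀ ha0 h2]
    rfl

theorem locind (n : ℕ) (G : Type) [Group G] (h : Lin n G) (hnt : TorsionFree G) : LocInd G := by
  obtain ⟨ρ, hρ⟩ := h
  intro H hH hne
  have h1 : Nontrivial H := (Subgroup.nontrivial_iff_ne_bot H).2 hne
  have h2 : Group.FG H := (Group.fg_iff_subgroup_fg H).2 hH
  obtain ⟨f, hf⟩ := U722.FF.LI n H (ρ.comp H.subtype) (hρ.comp H.subtype_injective)
    (U722.FF.NoTor_le H.subtype H.subtype_injective hnt) h2
  exact onto f hf

/-- (1) Let the fundamental group of a space `K` at `x` be torsion-free and isomorphic to a subgroup of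
`GL_2(ℤ[x_1, ..., x_n])`. Then it is locally indicable. (2) Assume the theorem of Adams. If `K` is a
subcomplex of a contractible 2-complex and the fundamental group of `K` at `x` is isomorphic to a subgroup
of `GL_2(ℤ[x_1, ..., x_n])` then it is locally indicable. -/
theorem result :
    (∀ (n : ℕ) (K : Type) [TopologicalSpace K] (x : K), Lin n (FundamentalGroup K x) →
      TorsionFree (FundamentalGroup K x) → LocInd (FundamentalGroup K x)) ∧
    (AdamsTheorem → ∀ (n : ℕ) (X : Type) [TopologicalSpace X] [T2Space X] (L : Set X)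
      [RelCWComplex L ∅] (K : Set X), Sub2 L K → ∀ x : K, Lin n (FundamentalGroup K x) →
      LocInd (FundamentalGroup K x)) := by
  refine ⟨fun n K _ x h1 h2 => locind n _ h1 h2, ?_⟩
  intro hA n X _ _ L _ K hK x hx
  refine locind n _ hx (hA X L K hK x ?_)
  obtain ⟨ρ, hρ⟩ := hx
  exact U722.FF.NoPerf_of_inj ρ hρ (U722.FF.noperf n)

end Pool.Agent.Results.MP_cf50d6_gt.PolynomialMatrixGroups
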