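import Pool.Agent.U293.FX.LIA

/-!
# Locally indicable fundamental groups: groups of automorphisms of `ℤ[x, y]`

Let `K` be a subcomplex of a contractible 2-complex. Is `π_1(K)` locally indicable? We show, without any
hypothesis, that the answer is yes if `π_1(K, x)` is torsion-free, does not contain `ℤ ^ 2`, and is
isomorphic to a subgroup of the automorphism group of the ring `ℤ[x, y]`. The embedding in a contractible
2-complex is not used. (A locally indicable group is torsion-free, and by the theorem of Adams the
fundamental group of a subcomplex of a contractible 2-complex is torsion-free if it has no nontrivial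
perfect subgroup.)

Outline. A finitely generated subgroup `H` of such a group acts without inversions and with finitely many
orbits on a tree, the stabilizers of the vertices are finitely generated free groups, and the ones of the
edges are trivial or infinite cyclic (`MP_073b1f_gt.TorsionFreeAutomorphisms`: tree of the amalgam of Jung's
theorem; lattices of integral polynomials; groups over `GL_2(ℤ)` with kernel in `ℤ ^ 2`; groups over the
infinite dihedral group). If `H` had no nontrivial homomorphism to `ℤ` then the quotient graph would be a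
tree, and a count of dimensions of the spaces of homomorphisms from the stabilizers to `ℚ` gives a
nontrivial homomorphism from `H` to `ℚ` (`Ind_of_tree`, library of helper722 for
`PolynomialMatrixGroups` in this folder).
-/

set_option autoImplicit false

namespace Pool.Agent.Results.MP_cf50d6_gt.TorsionFreeAutomorphisms

/-- `G` is isomorphic to a subgroup of the group of automorphisms of `ℤ[x, y]` -/
def ActsOnZxy (G : Type) [Group G] : Prop :=
  ∃ ρ : G →* (MvPolynomial (Fin 2) ℤ ≃ₐ[ℤ] MvPolynomial (Fin 2) ℤ), Function.Injective ρ

/-- only the unit element has finite order -/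
def TorsionFree (G : Type) [Group G] : Prop := ∀ g : G, ∀ k : ℕ, 0 < k → g ^ k = 1 → g = 1

/-- `G` contains a free abelian group of rank two -/
def ContainsZ2 (G : Type) [Group G] : Prop :=
  ∃ f : Multiplicative (ℤ × ℤ) →* G, Function.Injective f

/-- every nontrivial finitely generated subgroup maps onto the integers -/
def LocInd (G : Type) [Group G] : Prop := ∀ H : Subgroup G, H.FG → H ≠ ⊥ →
  ∃ f : H →* Multiplicative ℤ, Function.Surjective f

theorem onto {H : Type} [Group H] (f : H →* Multiplicative ℤ) (hf : f ≠ 1) :
    ∃ g : H →* Multiplicative ℤ, Function.Surjective g := by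
  let S : AddSubgroup ℤ :=
    { carrier := {z | ∃ h, f h = Multiplicative.ofAdd z}
      zero_mem' := ⟨1, map_one f⟩
      add_mem' := by
        rintro a b ⟨x, hx⟩ ⟨y, hy⟩
        exact ⟨x * y, by rw [map_mul, hx, hy]; rfl⟩
      neg_mem' := by
        rintro a ⟨x, hx⟩
        exact ⟨x⁻¹, by rw [map_inv, hx]; rfl⟩ }
  obtain ⟨a, ha⟩ := Int.subgroup_cyclic S
  have hdvd : ∀ h, ∃ k : ℤ, (f h).toAdd = k * a := by
    intro h
    have h1 : (f h).toAdd ∈ S := ⟨h, rfl⟩
    rw [ha, AddSubgroup.mem_closure_singleton] at h1
    obtain ⟨k, hk⟩ := h1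
    exact ⟨k, by rw [← hk, smul_eq_mul]⟩
  have ha0 : a ≠ 0 := by
    rintro rfl
    apply hf
    ext h
    obtain ⟨k, hk⟩ := hdvd h
    rw [mul_zero] at hk
    rw [MonoidHom.one_apply]
    exact hk
  choose k hk using hdvd
  have hmem : a ∈ S := by
    rw [ha]
    exact AddSubgroup.subset_closure rfl
  obtain ⟨h0, hh0⟩ := hmem
  refine ⟨{ toFun := fun h => Multiplicative.ofAdd (k h), map_one' := ?_, map_mul' := ?_ }, ?_⟩
  · have h1 := hk 1
    rw [map_one, toAdd_one] at h1
    have h2 : k 1 = 0 := by
      rcases mul_eq_zero.1 h1.symm with h | h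
      · exact h
      · exact absurd h ha0
    rw [h2]
    rfl
  · intro x y
    have h1 := hk (x * y)
    rw [map_mul, toAdd_mul, hk x, hk y, ← add_mul] at h1
    have h2 := mul_right_cancel₀ ha0 h1
    rw [← h2]
    rfl
  · intro z
    refine ⟨h0 ^ z.toAdd, ?_⟩
    show Multiplicative.ofAdd (k (h0 ^ z.toAdd)) = z
    have h1 := hk (h0 ^ z.toAdd)
    rw [map_zpow, hh0] at h1
    have h2 : z.toAdd * a = k (h0 ^ z.toAdd) * a := by
      rw [← h1]
      rfl
    rw [← mul_right_cancel₀ ha0 h2]
    rfl

/-- Let the fundamental group of a space `K` at `x` be torsion-free, without subgroups isomorphic to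
`ℤ ^ 2`, and isomorphic to a subgroup of the group of automorphisms of `ℤ[x, y]`. Then it is locally
indicable. -/
theorem result : ∀ (K : Type) [TopologicalSpace K] (x : K), ActsOnZxy (FundamentalGroup K x) →
    TorsionFree (FundamentalGroup K x) → ¬ ContainsZ2 (FundamentalGroup K x) →
    LocInd (FundamentalGroup K x) := by
  rintro K _ x ⟨ρ, hρ⟩ hnt hz H hH hne
  have h1 : Nontrivial H := (Subgroup.nontrivial_iff_ne_bot H).2 hne
  have h2 : Group.FG H := (Group.fg_iff_subgroup_fg H).2 hH
  obtain ⟨f, hf⟩ := Pool.Agent.U293.FX.LIA H (ρ.comp H.subtype) (hρ.comp H.subtype_injective)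
    (U722.FF.NoTor_le H.subtype H.subtype_injective hnt) h2
    (fun h => hz (U722.FF.HasZ2_le H.subtype H.subtype_injective h))
  exact onto f hf

end Pool.Agent.Results.MP_cf50d6_gt.TorsionFreeAutomorphisms
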